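import Mathlib
import Pool.Agent.Y114.TF.Main

/-!
# The Tate conjecture at a set of primes of positive density, from a few Frobenius polynomials

Let `M i` be finitely many pure motives over a number field `K` of odd weight (after Tate twists we
may assume that they have the same weight), with polarizations; `V ℓ i` is the `ℓ`-adic realization of
`M i`, of dimension `n i`, with the action `ρ ℓ i` of the Galois group `Γ` of `K`, `ω ℓ i` is the
alternating form given by the polarization and `χ ℓ` the similitude character (a power of the
cyclotomic character).  No semisimplicity is assumed, and nothing is assumed on the endomorphisms
of the motives `M i` or of their realizations.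

Let `γ j` be the Frobenius elements of finitely many places of `K` (with `N v = q`, and
`χ (γ j) = p ^ a`), such that the characteristic polynomial of `γ j` on `V ℓ i`, which does not depend
on `ℓ`, is irreducible over `ℚ`: it is the minimal polynomial of a Weil number `π j i` in a CM field
`F j i`.  We assume that the only multiplicative relations between the conjugates of the `π j i`
(`j` fixed) are the trivial ones (this is the case if the Galois group is as large as possible
and the place is not supersingular).

Let `L` be a Galois number field which contains all conjugates of all fields `F j i`.  An element
`σ` of its Galois group is *good* if for one place `j` its powers permute the conjugates of `π j i`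
transitively, for all `i`, and if for all `i` it fixes a conjugate of `π j i`, for some place `j`.

Theorem.  The lower natural density of the set of the primes `ℓ` such that

* the representation `V ℓ = ⊕ V ℓ i` is semisimple (for all subgroups of finite index), and
* all homomorphisms `V ℓ ^ {⊗ s} (c) → V ℓ ^ {⊗ t} (d)` of representations of subgroups of finite
  index are linear combinations of contractions and products with the polarizations

is at least the proportion of the good elements in the Galois group of `L`.

For the sum `M` of the `M i` this says that the identity component of the `ℓ`-adic monodromy group,
without the similitudes, is the product of the symplectic groups of the polarizations.  These are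
defined over `ℚ`, and the whole group (without similitudes) is contained in the product; so the
algebraic Sato–Tate conjecture holds for `M` and these `ℓ`, with ONE algebraic group over `ℚ`, the
product of the groups `Sp` of the polarized Betti realizations of the `M i`.

Also the Tate conjecture (surjectivity of `Hom(M, M') ⊗ ℚ_ℓ → Hom_{G_F}(M_ℓ, M'_ℓ)`, over all finite
extensions `F` of `K`) and the semisimplicity conjecture hold at these `ℓ` for all pure
motives `M`, `M'` in the tensor category generated by the motives `M i`.  For example, let `M` be a
motive of odd weight and rank `n`, and suppose that the Frobenius polynomials at two places have
as Galois groups the group of all signed permutations, with linearly disjoint splitting fields, and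
that they are not supersingular.  Two such polynomials can be found by computing; then the
theorem gives the Tate conjecture for all motives generated by `M` at a set of primes of
positive density, and with more polynomials of this kind one gets densities as close to one as
one likes.

The proof.  For a prime `ℓ` with Frobenius element `σ` in the Galois group of `L` the
characteristic polynomial of `γ j` on `V ℓ i` is irreducible over `ℚ_ℓ`, and the same is true for its
powers, so that `V ℓ i` is an irreducible representation of all subgroups of finite index;
it is absolutely irreducible since for some other Frobenius element one has a simple eigenvalue in
`ℚ_ℓ`.  The Lie algebra of the endomorphisms which kill all Tate classes contains a Cartan subalgebra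
of the product of the symplectic Lie algebras, so it is this product; the first fundamental
theorem and Chebotarev's theorem (natural density) give the result.
-/

set_option autoImplicit false

namespace Pool.Agent.Results.MP_92d903_ag.FrobeniusFieldsDensity

open NumberField IntermediateField Filter Pool.Agent.Y114.TF

theorem result {ι : Type} [Fintype ι] {n : ι → ℕ} {Γ : Type} [Group Γ]
    -- the `ℓ`-adic realizations and their polarizations
    (R : Realizations n Γ)
    -- finitely many Frobenius elements `γ j` and their Weil numbers
    {J : Type} [Fintype J] (F : J → ι → Type) [∀ j i, Field (F j i)] [∀ j i, NumberField (F j i)]
    [∀ j i, IsCMField (F j i)] (p a : J → ℕ) (π : ∀ j i, F j i) (γ : J → Γ)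
    (hγ : ∀ j, R.IsFrobenius (γ j) (p j) (a j) (π j))
    -- a Galois number field which contains all conjugates
    (L : Type) [Field L] [NumberField L] [IsGalois ℚ L]
    (hL : ∀ j i, Fintype.card (F j i →+* L) = Module.finrank ℚ (F j i))
    (hrel : ∀ j, OnlyTrivialRelations (π j) L) :
    ∀ ε : ℝ, 0 < ε → ∀ᶠ N in atTop,
      (Nat.card {σ : Gal(L/ℚ) // IsGood F σ} : ℝ) / (Nat.card Gal(L/ℚ) : ℝ) - ε <
        proportion R.TateAt N :=
  fun ε hε => main R F p a π γ hγ L hL hrel ε hε

end Pool.Agent.Results.MP_92d903_ag.FrobeniusFieldsDensity
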