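import Pool.Agent.Results.MP_2b5912_ag.FrobeniusCriterion
import Pool.Agent.Y127.A.Stab

/-!
# The algebraic Sato-Tate conjecture for orthogonal motives with generic Frobenius polynomials

Let `M` be a motive of weight `0` over `k` (for example the transcendental part `T` of `H²(X)(1)`) of
odd rank `n ≥ 3` with a symmetric polarisation, let `T` be a lattice in its Betti realisation, with the
form `B`, such that the Galois group acts on `T ⊗ ℤ_l` for all `l`, by isometries of determinant `1`. The
group `G_(1,l,k)(M) = G_(l,k)(M)` is the Zariski closure of the image of `Γ_k` in `GL(T ⊗ ℚ_l)`; it is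
contained in `SO(T, B)`. If it is equal to `SO(T, B)` for all `l`, then the algebraic Sato-Tate
conjecture holds for `M` (also over all finite extensions of `k`) with the group
`AST_k(M) = SO(T, B)`, which is defined over `ℚ` and does not depend on `l`. One expects this for all `M`
for which the motivic Galois group is `SO(T, B)`.

We assume that there are two Frobenius elements, at places of different residue characteristics, whose
characteristic polynomials `P` (with rational coefficients independent of `l`) are *generic*: `1` is a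
simple root of `P`, and the product of two of the other roots is never one of the other roots. This can
be checked by counting points. We prove that for every `l` the following are equivalent: the image
of the Galois group has a finite index in `SO(T, B)(ℤ_l)`; for every finite extension of `k` the
`l`-adic monodromy group is `SO(T, B)`; `T ⊗ ℚ_l` is irreducible over all finite extensions of `k`; and
`T ⊗ ℚ_l` is irreducible over the extensions of `k` of degree at most `5 ^ (2 n²)`. So the algebraic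
Sato-Tate conjecture with `AST_k(M) = SO(T, B)` holds for such `M` if (and only if) this irreducibility
holds for all `l`. Only irreducibility over `ℚ_l` (not absolute irreducibility) is needed, and nothing
is assumed on the places of bad reduction or on the Hodge structure.

The structures `Sys`, `GenericSys` and `IrrUpTo` are those of `MP_2b5912_ag.FrobeniusCriterion`, where
the image in `SO(T, B)(ℤ_l)` for almost all `l` is studied by means of the representations modulo `l`.
These are not considered here.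

Idea: by the theorem about generic isometries in that file and a theorem of Jordan the tangent space of
the image of the Galois group in `SO(T, B)(ℤ_l)` is everything, so the image contains all isometries
which are near to `1`. In particular it contains the rotations
`1 + (2 t / (1 - λ t²)) Z + (2 t² / (1 - λ t²)) Z²`, `t = l ^ m`, of the planes generated by two vectors of
an orthogonal basis over `ℚ_l`. Over `ℂ` they and their powers are elements of a one-parameter group
of semisimple matrices, so its tangent vector `Z` belongs to the Lie algebra of the Zariski closure of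
every subgroup of finite index. These tangent vectors generate the Lie algebra of `SO(T, B)`.
-/

set_option autoImplicit false

namespace Pool.Agent.Results.MP_92d903_ag.GenericFrobenius

open Matrix Pool.Agent.Y127.I Pool.Agent.Results.MP_2b5912_ag.IntegralProducts
  Pool.Agent.Results.MP_2b5912_ag.FrobeniusCriterion

section

variable {Γ : Type} [Group Γ] [TopologicalSpace Γ]

/-- The matrix of `γ` on `T ⊗ K`, where `K` is the algebraic closure of `ℚ_l`. -/
noncomputable def matBar (T : Sys Γ) (l : ℕ) [Fact l.Prime] (γ : Γ) :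
    Matrix (Fin T.n) (Fin T.n) (AlgebraicClosure ℚ_[l]) :=
  ((T.mat l γ).map (PadicInt.Coe.ringHom : ℤ_[l] →+* ℚ_[l])).map
    (algebraMap ℚ_[l] (AlgebraicClosure ℚ_[l]))

/-- `g` is in the Zariski closure of the image of the subgroup `Δ` of `Γ`: all polynomials in the
entries which vanish on the image of `Δ` vanish at `g`. -/
def InClosure (T : Sys Γ) (l : ℕ) [Fact l.Prime] (Δ : Subgroup Γ)
    (g : Matrix (Fin T.n) (Fin T.n) (AlgebraicClosure ℚ_[l])) : Prop :=
  ∀ f : MvPolynomial (Fin T.n × Fin T.n) (AlgebraicClosure ℚ_[l]),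
    (∀ γ ∈ Δ, MvPolynomial.aeval (fun q => matBar T l γ q.1 q.2) f = 0) →
      MvPolynomial.aeval (fun q => g q.1 q.2) f = 0

/-- `g` is a point of `SO(T, B)` over the algebraic closure of `ℚ_l`. -/
def InSO (T : Sys Γ) (l : ℕ) [Fact l.Prime]
    (g : Matrix (Fin T.n) (Fin T.n) (AlgebraicClosure ℚ_[l])) : Prop :=
  gᵀ * T.B.map (Int.cast : ℤ → AlgebraicClosure ℚ_[l]) * g =
    T.B.map (Int.cast : ℤ → AlgebraicClosure ℚ_[l]) ∧ g.det = 1

/-- The `l`-adic monodromy group is `SO(T, B)`, also over all finite extensions: the Zariski closure of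
the image of every subgroup of `Γ` of finite index is `SO(T, B)`. -/
def MonodromyIsSO (T : Sys Γ) (l : ℕ) [Fact l.Prime] : Prop :=
  ∀ Δ : Subgroup Γ, Δ.index ≠ 0 → ∀ g, InClosure T l Δ g ↔ InSO T l g

/-- The image of `Γ` has a finite index in `SO(T, B)(ℤ_l)`. -/
def HasFiniteIndex (T : Sys Γ) (l : ℕ) [Fact l.Prime] : Prop :=
  (T.ρ l).range.relIndex (SOg (T.B.map (Int.cast : ℤ → ℤ_[l]))) ≠ 0

/-! ### The proof -/

variable (T : Sys Γ) (l : ℕ) [Fact l.Prime]

/-- The homomorphism to the matrices over `ℤ_l`. -/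
noncomputable def rz : Γ →* Matrix (Fin T.n) (Fin T.n) ℤ_[l] := (Units.coeHom _).comp (T.ρ l)

theorem rz_isom (γ : Γ) : (rz T l γ)ᵀ * T.B.map (Int.cast : ℤ → ℤ_[l]) * rz T l γ =
    T.B.map (Int.cast : ℤ → ℤ_[l]) := (T.mem l γ).1

theorem map_B : ((T.B.map (Int.cast : ℤ → ℤ_[l])).map (PadicInt.Coe.ringHom (p := l))).map
    (algebraMap ℚ_[l] (AlgebraicClosure ℚ_[l])) =
      T.B.map (Int.cast : ℤ → AlgebraicClosure ℚ_[l]) := by
  ext a b
  simp

variable {T l}

/-- the irreducibility of the Lie algebra and infinite image -/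
theorem ad_of_irr (hg : GenericSys T)
    (hs : IrrUpTo T (5 ^ (2 * (T.n * T.n))) l (PadicInt.Coe.ringHom : ℤ_[l] →+* ℚ_[l])) :
    AdIrr T l (PadicInt.Coe.ringHom : ℤ_[l] →+* ℚ_[l]) ∧ (Set.range (T.ρ l)).Infinite := by
  have hn3 : 2 ≤ T.n := by have := T.rank; omega
  refine ⟨?_, ?_⟩
  · intro M hM hst
    refine irr_of_gen (A := T.B.map (Int.cast : ℤ → ℚ_[l])) (symm_cast T.symm) ?_ two_ne_zero
      (ρ := rhoF T l (PadicInt.Coe.ringHom : ℤ_[l] →+* ℚ_[l])) (rhoF_isom _ _ _) ?_
      (exists_gen hg l) hM hst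
    · rw [det_cast]
      exact_mod_cast T.det_ne
    · intro Δ h0 hi
      exact hs Δ h0 (hi.trans (le_bound _))
  · rcases inf_or_abelian (T.ρ l) with h | ⟨D, hD0, hDJ, hD⟩
    · exact h
    · exfalso
      refine odd_not_abelian (A := T.B.map (Int.cast : ℤ → ℚ_[l])) ?_ two_ne_zero hg.odd hn3
        (ρ := rhoF T l (PadicInt.Coe.ringHom : ℤ_[l] →+* ℚ_[l])) (rhoF_isom _ _ _) (D := D) ?_
        (hs D hD0 hDJ)
      · rw [det_cast]
        exact_mod_cast T.det_ne
      · intro a ha b hb
        have h1 := congrArg (fun u : GL (Fin T.n) ℤ_[l] =>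
          (PadicInt.Coe.ringHom (p := l)).mapMatrix (u : Matrix (Fin T.n) (Fin T.n) ℤ_[l]))
          (hD a ha b hb)
        simp only [Units.val_mul, map_mul] at h1
        exact h1

variable [CompactSpace Γ]

/-- the hypotheses of the theorems about open images -/
theorem open_im (hg : GenericSys T)
    (hs : IrrUpTo T (5 ^ (2 * (T.n * T.n))) l (PadicInt.Coe.ringHom : ℤ_[l] →+* ℚ_[l])) :
    Pool.Agent.Y127.A.OpenIm (T.B.map (Int.cast : ℤ → ℤ_[l])) (rz T l) ∧
    HasFiniteIndex T l := by
  classical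
  obtain ⟨h1, h2⟩ := ad_of_irr hg hs
  have hc : Continuous (toM (n := fun _ : Unit => T.n) fun _ : Unit => T.ρ l) :=
    toM_cont fun _ => T.cont l
  have hir : ∀ i : Unit, ∀ M : Submodule ℚ_[l] (Matrix (Fin T.n) (Fin T.n) ℚ_[l]),
      M ≤ soM (cq (n := fun _ : Unit => T.n) (fun _ => T.B.map (Int.cast : ℤ → ℤ_[l])) i) →
      (∀ γ, ∀ X ∈ M, cq (n := fun _ : Unit => T.n)
        ((toM (n := fun _ : Unit => T.n) fun _ : Unit => T.ρ l) γ) i * X *
        cq (n := fun _ : Unit => T.n) ((toM (n := fun _ : Unit => T.n)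
          fun _ : Unit => T.ρ l) γ⁻¹) i ∈ M) →
      M = ⊥ ∨ M = soM (cq (n := fun _ : Unit => T.n)
        (fun _ => T.B.map (Int.cast : ℤ → ℤ_[l])) i) := by
    intro i M hM hst
    have h3 := map_cast (PadicInt.Coe.ringHom (p := l)) T.B
    have h4 : cq (n := fun _ : Unit => T.n) (fun _ => T.B.map (Int.cast : ℤ → ℤ_[l])) i =
      T.B.map (Int.cast : ℤ → ℚ_[l]) := h3
    rw [h4] at hM ⊢
    exact h1 M hM hst
  have hinf : ∀ i : Unit, (Set.range fun γ =>
      (toM (n := fun _ : Unit => T.n) fun _ : Unit => T.ρ l) γ i).Infinite := by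
    intro i hfin
    apply h2
    refine Set.Finite.of_finite_image (f := fun u : GL (Fin T.n) ℤ_[l] =>
      (u : Matrix (Fin T.n) (Fin T.n) ℤ_[l])) (hfin.subset ?_)
      (fun u _ v _ huv => Units.ext huv)
    rintro _ ⟨_, ⟨γ, rfl⟩, rfl⟩
    exact ⟨γ, rfl⟩
  constructor
  · obtain ⟨k0, hk0⟩ := open_all (n := fun _ : Unit => T.n)
      (A := fun _ => T.B.map (Int.cast : ℤ → ℤ_[l])) (r := toM fun _ : Unit => T.ρ l)
      hc (fun _ => symm_cast T.symm) (fun _ => det_cast_ne T.det_ne)
      (fun γ _ => (T.mem l γ).1) hir hinf (fun i j hij => absurd (Subsingleton.elim i j) hij)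
    refine ⟨k0, fun g hg1 hY => ?_⟩
    obtain ⟨Y, hY⟩ := hY
    obtain ⟨γ, hγ⟩ := hk0 (fun _ => g) (fun _ => hg1) ⟨fun _ => Y, funext fun _ => hY⟩
    exact ⟨γ, congrFun hγ ()⟩
  · obtain ⟨C, hC⟩ := cosets_small (n := fun _ : Unit => T.n)
      (A := fun _ => T.B.map (Int.cast : ℤ → ℤ_[l])) (r := toM fun _ : Unit => T.ρ l)
      hc (fun _ => symm_cast T.symm) (fun _ => det_cast_ne T.det_ne)
      (fun γ _ => (T.mem l γ).1) hir hinf (fun i j hij => absurd (Subsingleton.elim i j) hij)
    exact (relIndex_proj (n := fun _ : Unit => T.n) (ρ := fun _ : Unit => T.ρ l)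
      (bdd_of_cosets hC).1 (bdd_of_cosets hC).2 ()).1


omit [CompactSpace Γ]

theorem symm_l : (T.B.map (Int.cast : ℤ → ℤ_[l]))ᵀ = T.B.map (Int.cast : ℤ → ℤ_[l]) :=
  symm_cast T.symm

theorem irr_of_monodromy (h : MonodromyIsSO T l) (N : ℕ) :
    IrrUpTo T N l (PadicInt.Coe.ringHom : ℤ_[l] →+* ℚ_[l]) := by
  intro Δ h0 _ W hW
  have hn3 : 3 ≤ T.n := by have := T.rank; omega
  have hd : (T.B.map (Int.cast : ℤ → ℚ_[l])).det ≠ 0 := by
    rw [det_cast]
    exact_mod_cast T.det_ne
  refine Pool.Agent.Y127.A.irr_of_SO (B := T.B.map (Int.cast : ℤ → ℚ_[l]))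
    (symm_cast T.symm) hd hn3 fun g hgi hg1 => ?_
  refine Pool.Agent.Y127.A.mem_of_vanish (algebraMap ℚ_[l] (AlgebraicClosure ℚ_[l]))
    (S := {x | ∃ γ ∈ Δ, x = (T.mat l γ).map (PadicInt.Coe.ringHom : ℤ_[l] →+* ℚ_[l])}) ?_ ?_
  · rintro _ ⟨γ, hγ, rfl⟩ w hw
    exact hW γ hγ w hw
  · intro f hf
    have hB : (T.B.map (Int.cast : ℤ → ℚ_[l])).map (algebraMap ℚ_[l] (AlgebraicClosure ℚ_[l])) =
        T.B.map (Int.cast : ℤ → AlgebraicClosure ℚ_[l]) := by
      ext a b
      simp
    refine (h Δ h0 (g.map (algebraMap ℚ_[l] (AlgebraicClosure ℚ_[l])))).2 ⟨?_, ?_⟩ f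
      (fun γ hγ => hf _ ⟨γ, hγ, rfl⟩)
    · have h1 := congrArg (fun M : Matrix (Fin T.n) (Fin T.n) ℚ_[l] =>
        M.map (algebraMap ℚ_[l] (AlgebraicClosure ℚ_[l]))) hgi
      simp only [Matrix.map_mul, ← Matrix.transpose_map, hB] at h1
      exact h1
    · have h1 := congrArg (algebraMap ℚ_[l] (AlgebraicClosure ℚ_[l])) hg1
      rw [map_one, RingHom.map_det] at h1
      exact h1

theorem matBar_isom (γ : Γ) : (matBar T l γ)ᵀ * T.B.map (Int.cast : ℤ → AlgebraicClosure ℚ_[l]) *
    matBar T l γ = T.B.map (Int.cast : ℤ → AlgebraicClosure ℚ_[l]) ∧ (matBar T l γ).det = 1 := by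
  obtain ⟨h1, h2⟩ := mem_SOg.1 (T.mem l γ)
  constructor
  · have h3 := congrArg (fun M : Matrix (Fin T.n) (Fin T.n) ℤ_[l] =>
      (M.map (PadicInt.Coe.ringHom : ℤ_[l] →+* ℚ_[l])).map
        (algebraMap ℚ_[l] (AlgebraicClosure ℚ_[l]))) h1
    simp only [Matrix.map_mul, ← Matrix.transpose_map, map_B] at h3
    exact h3
  · have h3 := congrArg (fun x : ℤ_[l] => algebraMap ℚ_[l] (AlgebraicClosure ℚ_[l])
      ((PadicInt.Coe.ringHom : ℤ_[l] →+* ℚ_[l]) x)) h2
    simp only [map_one, RingHom.map_det] at h3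
    exact h3

theorem monodromy_of_open
    (ho : Pool.Agent.Y127.A.OpenIm (T.B.map (Int.cast : ℤ → ℤ_[l])) (rz T l)) :
    MonodromyIsSO T l := by
  intro Δ h0 g
  constructor
  · intro hcl
    refine Pool.Agent.Y127.A.isom_of_closure (B := T.B.map (Int.cast : ℤ → AlgebraicClosure ℚ_[l]))
      (S := {x | ∃ γ ∈ Δ, x = matBar T l γ}) ?_ ?_
    · rintro _ ⟨γ, _, rfl⟩
      exact matBar_isom γ
    · intro f hf
      exact hcl f fun γ hγ => hf _ ⟨γ, hγ, rfl⟩
  · rintro ⟨h1, h2⟩ f hf
    refine Pool.Agent.Y127.A.closure_of_open (A := T.B.map (Int.cast : ℤ → ℤ_[l])) symm_l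
      (det_cast_ne T.det_ne) ho (g := g) ?_ h2 ⟨Δ, ⟨h0⟩, fun γ hγ => hf γ hγ⟩
    rw [map_B]
    exact h1

end

/-- **Theorem.** Let `Γ` be a compact group and `T` a system of orthogonal representations of odd rank
`n ≥ 3` over `ℤ_l` for all `l`, with generic Frobenius elements at two different primes. For every
prime `l` the following are equivalent:
(1) the Zariski closure of the image in `GL(T ⊗ ℚ_l)` of every subgroup of `Γ` of finite index is
`SO(T, B)`;
(2) `T ⊗ ℚ_l` is irreducible under all subgroups of `Γ` of finite index;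
(3) `T ⊗ ℚ_l` is irreducible under the subgroups of `Γ` of index at most `5 ^ (2 n²)`;
(4) the image of `Γ` has a finite index in `SO(T, B)(ℤ_l)`. -/
theorem result (Γ : Type) [Group Γ] [TopologicalSpace Γ] [CompactSpace Γ] (T : Sys Γ)
    (hg : GenericSys T) (l : ℕ) [Fact l.Prime] :
    List.TFAE [MonodromyIsSO T l,
      ∀ N, IrrUpTo T N l (PadicInt.Coe.ringHom : ℤ_[l] →+* ℚ_[l]),
      IrrUpTo T (5 ^ (2 * T.n ^ 2)) l (PadicInt.Coe.ringHom : ℤ_[l] →+* ℚ_[l]),
      HasFiniteIndex T l] := by
  tfae_have 1 → 2 := fun h N => irr_of_monodromy h N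
  tfae_have 2 → 3 := fun h => h _
  tfae_have 3 → 4 := fun h => (open_im hg (by rwa [sq] at h)).2
  tfae_have 3 → 1 := fun h => monodromy_of_open (open_im hg (by rwa [sq] at h)).1
  tfae_have 4 → 2 := fun h N Δ h0 _ W hW =>
    sirrN_padic (symm_cast T.symm) (det_cast_ne T.det_ne) (by have := T.rank; omega) h le_rfl h0 hW
  tfae_finish

end Pool.Agent.Results.MP_92d903_ag.GenericFrobenius
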