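import Mathlib
import Pool.Agent.Y114.AP.Main

/-!
# The algebraic Sato–Tate conjecture at all primes `ℓ`, from the local monodromy at a few places

Let `M i` be finitely many pure motives over a number field `K` of odd weight (after Tate twists we
may assume that they have the same weight), with polarizations; `V ℓ i` is the `ℓ`-adic realization of
`M i`, of dimension `n i`, with the action `ρ ℓ i` of the Galois group `Γ` of `K`, `ω ℓ i` is the
alternating form given by the polarization and `χ ℓ` the similitude character (a power of the
cyclotomic character).  No semisimplicity is assumed, and nothing is assumed on the endomorphisms
of the motives `M i` or of their realizations.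

We use three kinds of places.

* (`IsFrobenius`, `OnlyTrivialRelations`) A place of good reduction where the characteristic
  polynomial of Frobenius on `V ℓ i` is the minimal polynomial of a Weil number `π i` in a CM field,
  and the conjugates of the `π i` have no multiplicative relations except the trivial ones.
* (`TameAt`) A place of potentially good reduction where the inertia group acts tamely: the
  characteristic polynomial of a generator `t` of tame inertia on `V ℓ i` is a product of cyclotomic
  polynomials `Φ_e`, and the order of `q` modulo `e` is divisible by `o` for all of them (`q` is the
  number of elements of the residue field).
* (`LargeMonodromyAt`) A place where the nilpotent monodromy operator `N` on `V ℓ i` satisfies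
  `N ^ (n i / 2) ≠ 0`; for example maximally unipotent monodromy.

Theorem.  Let `ℓ` be a prime.  Suppose that there are a place of the first kind, for all `i` a place
of the third kind, and for all `i` and `0 < d < n i` a place of the second kind with `o ∤ d`, all of
residue characteristic different from `ℓ`.  Then

* the representation `V ℓ = ⊕ V ℓ i` is semisimple (for all subgroups of finite index), and
* all homomorphisms `V ℓ ^ {⊗ s} (c) → V ℓ ^ {⊗ t} (d)` of representations of subgroups of finite
  index are linear combinations of contractions and products with the polarizations.

For the sum `M` of the `M i` this says that the identity component of the `ℓ`-adic monodromy group,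
without the similitudes, is the product of the symplectic groups of the polarizations.  These are
defined over `ℚ`, and the whole group (without similitudes) is contained in the product.  So if there
are places of the three kinds with at least two residue characteristics, then the algebraic
Sato–Tate conjecture holds for `M` and ALL primes `ℓ`, with one algebraic group over `ℚ`, the product
of the groups `Sp` of the polarized Betti realizations of the `M i`.

Also the Tate conjecture (surjectivity of `Hom(M, M') ⊗ ℚ_ℓ → Hom_{G_F}(M_ℓ, M'_ℓ)`, over all finite
extensions `F` of `K`) and the semisimplicity conjecture hold for **all** primes `ℓ` and all pure
motives `M`, `M'` in the tensor category generated by the motives `M i`.  The conditions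
concern finitely many places and are independent of `ℓ`.

Examples.  Let `M` be the hypergeometric motive (member of a Dwork family) over `ℚ` of rank
`n = φ(e)`, `e` a power of an odd prime, whose exponents are the primitive `e`-th roots of unity at
one point, and which has maximally unipotent monodromy at another (for `e = 5` the motive of rank
four in the cohomology of the mirror quintics).  If the parameter is congruent to the first point
modulo `p`, to a power prime to `e`, then `t` has characteristic polynomial `Φ_e` and for a prime `p`
which is a primitive root modulo `e` one has `o = n`, so that one place of the second kind is
enough for all `d`; if the parameter is congruent to the second point modulo another prime, we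
have a place of the third kind; for the first kind one Frobenius polynomial has to be computed.

The proof.  For a place of the second kind the dimension of any subspace of `V ℓ i` which is stable
under `t` and `φ` is divisible by `o`; so `V ℓ i` is irreducible.  By Clifford theory and the large
monodromy it is absolutely irreducible for all subgroups of finite index.  The Lie algebra of the
endomorphisms which kill all Tate classes contains a Cartan subalgebra of the product of the
symplectic Lie algebras, so it is this product; the first fundamental theorem gives the result.
-/

set_option autoImplicit false

namespace Pool.Agent.Results.MP_92d903_ag.LocalMonodromyAllPrimes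

open NumberField IntermediateField Pool.Agent.Y114.TF Pool.Agent.Y114.AP

theorem result {ι : Type} [Fintype ι] {n : ι → ℕ} {Γ : Type} [Group Γ]
    -- the `ℓ`-adic realizations and their polarizations
    (R : Realizations n Γ)
    -- Frobenius elements `γ j` at places of good reduction and their Weil numbers
    {J : Type} (F : J → ι → Type) [∀ j i, Field (F j i)] [∀ j i, NumberField (F j i)]
    [∀ j i, IsCMField (F j i)] (p a : J → ℕ) (π : ∀ j i, F j i) (γ : J → Γ)
    (hγ : ∀ j, R.IsFrobenius (γ j) (p j) (a j) (π j))
    -- a Galois number field which contains all conjugates
    (L : Type) [Field L] [NumberField L] [IsGalois ℚ L]
    (hL : ∀ j i, Fintype.card (F j i →+* L) = Module.finrank ℚ (F j i))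
    (hrel : ∀ j, OnlyTrivialRelations (π j) L)
    -- a prime `ℓ`, and places of the three kinds of other residue characteristics
    (ℓ : ℕ) (hℓ : ℓ.Prime) (hgood : ∃ j, p j ≠ ℓ)
    (htame : ∀ i d, 0 < d → d < n i → ∃ p' o, p' ≠ ℓ ∧ ¬ o ∣ d ∧ TameAt R i p' o)
    (hmon : ∀ i, ∃ p', p' ≠ ℓ ∧ LargeMonodromyAt R i p') :
    R.TateAt ℓ :=
  main R F p a π γ hγ L hL hrel ℓ hℓ hgood htame hmon

end Pool.Agent.Results.MP_92d903_ag.LocalMonodromyAllPrimes
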